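import Pool.Agent.Helper6.T5.Num
import Pool.Agent.Helper95.A.P235

/-! The class used, the moment bound, the diameter property. -/

set_option linter.unusedSectionVars false

namespace Pool.Agent.Helper6.T5

open Matrix Equiv Filter Topology Pool.Agent.Helper15.An Pool.Agent.Helper6.FixK
open scoped ComplexOrder

/-- the moment hypothesis of the second moment method holds -/
theorem beta_bound (k : ℕ) (hk : 8 ≤ k) : ∀ᶠ n : ℕ in atTop, ∀ (F : PW (Perm (Fin n)))
    (Z : Finset (Fin k → Alt n)), (∀ z ∈ Z, Good F (tupW z) 20 (1 / 2)) →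
    ∀ i, ¬ Triv (F.ρ i) (Alt n) →
      ∑ z ∈ Z, (trace ((lz (avgRe fun l => F.ρ i (z l : Perm (Fin n)))) ^ (2 * len n))).re ≤
        F.D i * ((Fintype.card (Alt n) : ℝ) ^ k * (3 / (n : ℝ) ^ 3)) := by
  filter_upwards [ev_N1, ev_N2, ev_N3 k, eventually_ge_atTop 64] with n h1 h2 h3 hn64 F Z hZ i hnt
  obtain ⟨h31, h32, h33, h34, h35, h36⟩ := h3
  have hn0 : (0 : ℝ) < n := by
    have : 0 < n := by omega
    exact_mod_cast this
  have hk0 : 0 < k := by omega
  have hirr := F.irr i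
  have hu := hirr.unit
  set N := (Fintype.card (Alt n) : ℝ) ^ k with hN
  have hN0 : 0 ≤ N := by positivity
  have hD : (0 : ℝ) ≤ F.D i := Nat.cast_nonneg _
  by_cases hf : HasFix (F.ρ i) (stab n 20)
  · -- low level
    have h5 : ∀ z ∈ Z, (trace ((lz (avgRe fun l => F.ρ i (z l : Perm (Fin n)))) ^
        (2 * len n))).re ≤ F.D i * (1 / (n : ℝ) ^ 3) := by
      intro z hz
      have hg := hZ z hz i hnt hf
      rw [wop_tupW (F.ρ i) hu] at hg
      have h6 := low_trace (avgRe_isHermitian fun l => F.ρ i (z l : Perm (Fin n))) (1 / 2) hg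
        (one_add_avgRe_psd hk0 hu fun l => (z l : Perm (Fin n))) (2 * len n)
      refine h6.trans ?_
      rw [show (1 - 1 / 2 / 2 : ℝ) = 3 / 4 by norm_num]
      exact mul_le_mul_of_nonneg_left h34 hD
    refine (Finset.sum_le_sum h5).trans ?_
    rw [Finset.sum_const, nsmul_eq_mul]
    have h7 : (Z.card : ℝ) ≤ N := by
      have h8 := Finset.card_le_univ Z
      rw [Fintype.card_fun, Fintype.card_fin] at h8
      rw [hN]
      exact_mod_cast h8
    calc (Z.card : ℝ) * (F.D i * (1 / (n : ℝ) ^ 3)) ≤ N * (F.D i * (1 / (n : ℝ) ^ 3)) := by gcongr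
      _ = F.D i * (N * (1 / (n : ℝ) ^ 3)) := by ring
      _ ≤ F.D i * (N * (3 / (n : ℝ) ^ 3)) := by gcongr; norm_num
  · -- high level
    have hF0 : 0 < ⌈(n : ℝ) ^ (1 / 4 : ℝ)⌉₊ := Nat.ceil_pos.2 (by positivity)
    have h5 := lazy_moment_le (show 2 ≤ n by omega) hk0 hu (2 * len n) 20
      ⌈(n : ℝ) ^ (1 / 4 : ℝ)⌉₊ h31 h32 hF0 (1 / (n : ℝ) ^ 3) (by positivity) (fun g hg =>
        psi_bound hirr hnt hf _ (n / 800) (5 * ⌈Real.log n⌉₊) (by omega) hn64 h36 h35 _ h1 h2 g hg)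
    have h6 : ∑ z ∈ Z, (trace ((lz (avgRe fun l => F.ρ i (z l : Perm (Fin n)))) ^
        (2 * len n))).re ≤ ∑ z : Fin k → Alt n,
          (trace ((lz (avgRe fun l => F.ρ i (z l : Perm (Fin n)))) ^ (2 * len n))).re :=
      Finset.sum_le_sum_of_subset_of_nonneg (Finset.subset_univ Z) fun z _ _ =>
        even_trace_nonneg (avgRe_isHermitian _) _
    refine h6.trans (h5.trans ?_)
    rw [mul_assoc]
    refine mul_le_mul_of_nonneg_left (mul_le_mul_of_nonneg_left ?_ hN0) hD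
    have h7 : ((1 + 2 * Real.sqrt (2 * k) / (2 * k)) / 2) ^ (2 * len n) ≤ 1 / (n : ℝ) ^ 3 := by
      refine le_trans (pow_le_pow_left₀ (by positivity) ?_ _) h34
      have hk8 : (8 : ℝ) ≤ k := by exact_mod_cast hk
      have h8 : Real.sqrt (2 * k) ≤ k / 2 := by
        rw [Real.sqrt_le_left (by positivity)]
        nlinarith
      have h9 : 2 * Real.sqrt (2 * k) / (2 * k) ≤ 1 / 2 := by
        rw [div_le_iff₀ (by positivity)]
        linarith
      linarith
    calc _ ≤ 1 / (n : ℝ) ^ 3 + 1 / (n : ℝ) ^ 3 + 1 / (n : ℝ) ^ 3 := by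
          refine add_le_add (add_le_add h7 ?_) le_rfl
          exact_mod_cast h33
      _ = 3 / (n : ℝ) ^ 3 := by ring

/-- the class used -/
noncomputable def cls (n M s : ℕ) : Finset (Alt n) := by
  classical
  exact Finset.univ.filter fun g : Alt n => (g : Perm (Fin n)).cycleType = {M, s}

theorem mem_cls {n M s : ℕ} {g : Alt n} :
    g ∈ cls n M s ↔ (g : Perm (Fin n)).cycleType = {M, s} := by
  unfold cls
  simp

theorem cls_card {n M s : ℕ} (hn : 2 ≤ n) (hs : 2 ≤ s) (hM : 2 ≤ M) (hne : M ≠ s)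
    (h1 : M + s ≤ n) (h2 : n ≤ M + s + 1) (hev : Even (M + s)) :
    (cls n M s).card * (M * s) = 2 * Fintype.card (Alt n) := by
  classical
  have h3 := Pool.Agent.Helper95.A.P3_card hs hM hne h1 h2
  have h4 := card_Alt hn
  rw [Fintype.card_perm, Fintype.card_fin] at h4
  rw [← h4, ← h3]
  congr 1
  refine Finset.card_bij (fun g _ => (g : Perm (Fin n))) ?_ ?_ ?_
  · intro g hg
    rw [Finset.mem_filter]
    exact ⟨Finset.mem_univ _, mem_cls.1 hg⟩
  · intro a _ b _ hab
    exact Subtype.ext hab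
  · intro σ hσ
    have h5 := (Finset.mem_filter.1 hσ).2
    have h6 : Perm.sign σ = 1 := by
      rw [Perm.sign_of_cycleType, h5]
      have h7 : ({M, s} : Multiset ℕ).sum + Multiset.card ({M, s} : Multiset ℕ) = M + s + 2 := by
        simp
      rw [h7]
      exact Even.neg_one_pow (hev.add (by decide))
    exact ⟨⟨σ, mem_Alt.2 h6⟩, mem_cls.2 h5, rfl⟩

/-- the diameter bound holds for the tuple -/
def SmallDiam {n k : ℕ} (x : Fin k → Alt n) (m : ℝ) : Prop :=
  ∀ g : Alt n, ∃ l : List (Fin k × Bool), (l.length : ℝ) ≤ m ∧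
    (l.map fun p => if p.2 then x p.1 else (x p.1)⁻¹).prod = g

theorem SmallDiam.mono {n k : ℕ} {x : Fin k → Alt n} {m m' : ℝ} (h : SmallDiam x m)
    (hm : m ≤ m') : SmallDiam x m' := fun g => by
  obtain ⟨l, hl, hg⟩ := h g
  exact ⟨l, hl.trans hm, hg⟩

end Pool.Agent.Helper6.T5
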