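import Pool.Agent.Helper6.T5.Hit
import Pool.Agent.Helper95.A.P235
import Pool.Agent.Helper38.T5.Sort
import Pool.Agent.Helper38.T5.Reach

/-! From short words to the diameter. -/

set_option linter.unusedSectionVars false

namespace Pool.Agent.Helper6.T5

open Equiv Pool.Agent.Helper15.An Pool.Agent.Helper6.FixK

/-- `g` is a word of length at most `m` in the tuple `x` and its inverses -/
def Reach {G : Type} [Group G] {k : ℕ} (x : Fin k → G) (m : ℕ) (g : G) : Prop :=
  ∃ l : List (Fin k × Bool), l.length ≤ m ∧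
    (l.map fun p => if p.2 then x p.1 else (x p.1)⁻¹).prod = g

section reach
variable {G : Type} [Group G] {k : ℕ} {x : Fin k → G}

theorem Reach.mono {m m' : ℕ} {g : G} (h : Reach x m g) (hm : m ≤ m') : Reach x m' g := by
  obtain ⟨l, hl, hg⟩ := h
  exact ⟨l, hl.trans hm, hg⟩

theorem Reach.one (m : ℕ) : Reach x m 1 := ⟨[], Nat.zero_le _, rfl⟩

theorem Reach.mul {m m' : ℕ} {g g' : G} (h : Reach x m g) (h' : Reach x m' g') :
    Reach x (m + m') (g * g') := by
  obtain ⟨l, hl, hg⟩ := h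
  obtain ⟨l', hl', hg'⟩ := h'
  refine ⟨l ++ l', ?_, ?_⟩
  · rw [List.length_append]; omega
  · rw [List.map_append, List.prod_append, hg, hg']

theorem Reach.inv {m : ℕ} {g : G} (h : Reach x m g) : Reach x m g⁻¹ := by
  obtain ⟨l, hl, hg⟩ := h
  refine ⟨(l.map fun p => (p.1, !p.2)).reverse, ?_, ?_⟩
  · rw [List.length_reverse, List.length_map]; exact hl
  · rw [← hg, List.prod_inv_reverse, List.map_reverse, List.map_map, List.map_map]
    congr 2
    apply List.map_congr_left
    rintro ⟨i, b⟩ _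
    cases b <;> simp

theorem Reach.pow {m : ℕ} {g : G} (h : Reach x m g) (j : ℕ) : Reach x (j * m) (g ^ j) := by
  induction j with
  | zero => rw [pow_zero]; exact Reach.one _
  | succ j ih =>
    rw [pow_succ]
    exact (ih.mul h).mono (le_of_eq (by ring))

theorem Reach.list_prod {m : ℕ} (L : List G) (h : ∀ c ∈ L, Reach x m c) :
    Reach x (L.length * m) L.prod := by
  induction L with
  | nil => exact Reach.one _
  | cons a L ih =>
    rw [List.prod_cons, List.length_cons]
    exact ((h a (by simp)).mul (ih fun c hc => h c (by simp [hc]))).mono (le_of_eq (by ring))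

theorem Reach.gen (i : Fin k) : Reach x 1 (x i) := ⟨[(i, true)], le_refl _, by simp⟩

theorem Reach.succ {k : ℕ} {z : Fin k → G} {y : G} {m : ℕ} {g : G} (h : Reach z m g) :
    Reach (Fin.cons y z : Fin (k + 1) → G) m g := by
  obtain ⟨l, hl, hg⟩ := h
  refine ⟨l.map fun p => (p.1.succ, p.2), by rw [List.length_map]; exact hl, ?_⟩
  rw [← hg, List.map_map]
  congr 1

theorem Reach.map {H : Type} [Group H] (φ : G →* H) {m : ℕ} {g : G} (h : Reach x m g) :
    Reach (fun i => φ (x i)) m (φ g) := by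
  obtain ⟨l, hl, hg⟩ := h
  refine ⟨l, hl, ?_⟩
  rw [← hg, map_list_prod, List.map_map]
  congr 1
  apply List.map_congr_left
  rintro ⟨i, b⟩ _
  cases b <;> simp

end reach

variable {n : ℕ}

/-- action on tuples -/
def act (s : ℕ) : Perm (Fin n) →* Perm (Fin s ↪ Fin n) where
  toFun σ := ⟨fun a => a.trans σ.toEmbedding, fun a => a.trans (σ⁻¹ : Perm (Fin n)).toEmbedding,
    fun a => by ext i; simp, fun a => by ext i; simp⟩
  map_one' := by ext a i; simp
  map_mul' σ τ := by ext a i; simp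

theorem act_apply (s : ℕ) (σ : Perm (Fin n)) (a : Fin s ↪ Fin n) :
    act s σ a = a.trans σ.toEmbedding := rfl

theorem act_inv_apply (s : ℕ) (σ : Perm (Fin n)) (a : Fin s ↪ Fin n) :
    (act s σ)⁻¹ a = a.trans (σ⁻¹ : Perm (Fin n)).toEmbedding := rfl

/-- short words move any tuple to any other tuple -/
theorem reach_tuple {k : ℕ} (hk : 0 < k) (z : Fin k → Alt n) {s t : ℕ}
    (hgap : TupleGap z s (1 / 2)) (ht : (n : ℝ) ^ s < 2 * (5 / 4) ^ t)
    (a b : Fin s ↪ Fin n) : ∃ h : Perm (Fin n), (∀ i, h (a i) = b i) ∧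
      Reach (fun i => (z i : Perm (Fin n))) (2 * t) h := by
  classical
  obtain ⟨l, hl, hab⟩ := Pool.Agent.Helper38.T5.P4_reach hk
    (fun i => act s (z i : Perm (Fin n))) (1 / 2) (by norm_num) (fun φ hφ => by
      have h1 := hgap φ hφ
      exact h1) t (by
      rw [show (1 + 1 / 2 / 2 : ℝ) = 5 / 4 by norm_num]
      refine lt_of_le_of_lt ?_ ht
      rw [Fintype.card_embedding_eq, Fintype.card_fin, Fintype.card_fin]
      exact_mod_cast Nat.descFactorial_le_pow n s) a b
  set h : Perm (Fin n) := (l.map fun p => if p.2 then (z p.1 : Perm (Fin n)) else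
    (z p.1 : Perm (Fin n))⁻¹).prod with hh
  have hact : act s h = (l.map fun p => if p.2 then act s (z p.1 : Perm (Fin n)) else
      (act s (z p.1 : Perm (Fin n)))⁻¹).prod := by
    rw [hh, map_list_prod, List.map_map]
    congr 1
    apply List.map_congr_left
    rintro ⟨i, b⟩ _
    cases b <;> simp
  refine ⟨h, fun i => ?_, l, hl, rfl⟩
  rw [← hact, act_apply] at hab
  have := congrArg (fun c : Fin s ↪ Fin n => c i) hab
  exact this

/-- the deterministic part -/
theorem diam_bound {k : ℕ} (hk : 0 < k) (z : Fin k → Alt n) (y : Alt n) {s M ℓ t τ : ℕ}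
    (hs : s = 2 * τ + 1) (hτ : 1 ≤ τ) (hsn : s ≤ n) (hM : 2 ≤ M) (hc : Nat.Coprime M s)
    (hgap : TupleGap z s (1 / 2)) (ht : (n : ℝ) ^ s < 2 * (5 / 4) ^ t)
    (l₀ : List (Fin k × Bool)) (hl₀ : l₀.length ≤ ℓ)
    (hw : ((y * evl z l₀ : Alt n) : Perm (Fin n)).cycleType = {M, s}) (g : Alt n) :
    ∃ m, τ * m ≤ (n + 8 * τ ^ 2) * (M * (ℓ + 1) + 4 * t) ∧
      Reach (Fin.cons y z : Fin (k + 1) → Alt n) m g := by
  classical
  set x : Fin (k + 1) → Alt n := Fin.cons y z with hx
  set X : Fin (k + 1) → Perm (Fin n) := fun i => (x i : Perm (Fin n)) with hX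
  have hXz : X = Fin.cons (y : Perm (Fin n)) fun i => (z i : Perm (Fin n)) := by
    funext i
    refine Fin.cases ?_ (fun j => ?_) i <;> simp [hX, hx]
  -- the short cycle
  have h1 : Reach z ℓ (evl z l₀) := ⟨l₀, hl₀, rfl⟩
  have h2 : Reach x (ℓ + 1) (y * evl z l₀) := by
    have h3 : Reach x 1 (x 0) := Reach.gen 0
    have h4 : Reach x ℓ (evl z l₀) := h1.succ
    have h5 := h3.mul h4
    rw [hx, Fin.cons_zero, ← hx] at h5
    exact h5.mono (by omega)
  set c₀ : Perm (Fin n) := ((y * evl z l₀ : Alt n) : Perm (Fin n)) ^ M with hc₀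
  have h3 : Reach X (M * (ℓ + 1)) c₀ := (h2.map (Alt n).subtype).pow M
  obtain ⟨hcyc, hsup⟩ := Pool.Agent.Helper95.A.P3_pow (show 2 ≤ s by omega) hM hc _ hw
  -- all cycles of length `s`
  have h4 : ∀ c : Perm (Fin n), c.IsCycle → c.support.card = s →
      Reach X (M * (ℓ + 1) + 4 * t) c := by
    intro c hcc hcs
    obtain ⟨a, b, hab⟩ := Pool.Agent.Helper95.A.P5_conj c₀ c hcyc hsup hcc hcs
    obtain ⟨h, hh1, hh2⟩ := reach_tuple hk z hgap ht a b
    have h5 : Reach X (2 * t) h := by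
      rw [hXz]
      exact hh2.succ
    rw [← hab h hh1]
    exact ((h5.mul h3).mul h5.inv).mono (by omega)
  obtain ⟨L, hL1, hL2, hL3⟩ := Pool.Agent.Helper38.T5.P1_sort hτ (by omega : 2 * τ + 1 ≤ n)
    (g : Perm (Fin n)) (mem_Alt.1 g.2)
  have h5 := Reach.list_prod (x := X) (m := M * (ℓ + 1) + 4 * t) L fun c hc' =>
    h4 c (hL3 c hc').1 (by rw [(hL3 c hc').2, hs])
  rw [hL1] at h5
  refine ⟨L.length * (M * (ℓ + 1) + 4 * t), ?_, ?_⟩
  · calc τ * (L.length * (M * (ℓ + 1) + 4 * t)) = (τ * L.length) * (M * (ℓ + 1) + 4 * t) := by ring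
      _ ≤ _ := Nat.mul_le_mul_right _ hL2
  · obtain ⟨l, hl, hlg⟩ := h5
    refine ⟨l, hl, ?_⟩
    apply Subtype.ext
    rw [← hlg]
    have := map_list_prod (Alt n).subtype (l.map fun p => if p.2 then x p.1 else (x p.1)⁻¹)
    rw [List.map_map] at this
    refine this.trans ?_
    congr 1
    apply List.map_congr_left
    rintro ⟨i, b⟩ _
    cases b <;> simp [hX]

end Pool.Agent.Helper6.T5
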