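import Pool.Agent.Helper6.FixK.Rayleigh

/-! Second moment method over a conjugacy class: short words hit a given class. -/

set_option linter.unusedSectionVars false

namespace Pool.Agent.Helper6.T5

open Matrix Equiv Pool.Agent.Helper15.An Pool.Agent.Helper6.FixK
open scoped ComplexOrder

variable {n : ℕ}

/-- lazy walk -/
noncomputable def lwalk {k : ℕ} (z : Fin k → Alt n) (f : Alt n → ℝ) : Alt n → ℝ := fun g =>
  (1 / 2) * (f g + walk z f g)

/-- value of a word -/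
def evl {k : ℕ} (z : Fin k → Alt n) (l : List (Fin k × Bool)) : Alt n :=
  (l.map fun p => if p.2 then z p.1 else (z p.1)⁻¹).prod

theorem evl_nil {k : ℕ} (z : Fin k → Alt n) : evl z [] = 1 := rfl

theorem evl_cons {k : ℕ} (z : Fin k → Alt n) (p : Fin k × Bool) (l : List (Fin k × Bool)) :
    evl z (p :: l) = (if p.2 then z p.1 else (z p.1)⁻¹) * evl z l := by
  unfold evl
  rw [List.map_cons, List.prod_cons]

theorem exists_word {k : ℕ} (z : Fin k → Alt n) (E : Alt n → Prop) (u : Alt n → ℝ)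
    (hu : ∀ g, u g ≠ 0 → E g) (ℓ : ℕ) (y : Alt n)
    (h : (lwalk z)^[ℓ] u y ≠ 0) : ∃ l, l.length ≤ ℓ ∧ E (y * evl z l) := by
  induction ℓ generalizing y with
  | zero => exact ⟨[], le_refl _, by rw [evl_nil, mul_one]; exact hu _ h⟩
  | succ ℓ ih =>
    rw [Function.iterate_succ_apply'] at h
    set v := (lwalk z)^[ℓ] u with hv
    unfold lwalk walk at h
    by_cases h0 : v y = 0
    · by_cases h1 : ∀ i, v (y * z i) = 0 ∧ v (y * (z i)⁻¹) = 0
      · exfalso
        apply h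
        rw [h0, Finset.sum_eq_zero fun i _ => by rw [(h1 i).1, (h1 i).2, add_zero]]
        simp
      · push Not at h1
        obtain ⟨i, hi⟩ := h1
        by_cases h2 : v (y * z i) = 0
        · obtain ⟨l, hl, hE⟩ := ih _ (hi h2)
          refine ⟨(i, false) :: l, by simpa using hl, ?_⟩
          rw [evl_cons, ← mul_assoc]
          exact hE
        · obtain ⟨l, hl, hE⟩ := ih _ h2
          refine ⟨(i, true) :: l, by simpa using hl, ?_⟩
          rw [evl_cons, ← mul_assoc]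
          exact hE
    · obtain ⟨l, hl, hE⟩ := ih _ h0
      exact ⟨l, by omega, hE⟩

theorem lwalk_sub_const {k : ℕ} (hk : 0 < k) (z : Fin k → Alt n) (u : Alt n → ℝ) (p : ℝ)
    (ℓ : ℕ) : (lwalk z)^[ℓ] (fun g => u g - p) = fun g => (lwalk z)^[ℓ] u g - p := by
  induction ℓ with
  | zero => rfl
  | succ ℓ ih =>
    rw [Function.iterate_succ_apply', Function.iterate_succ_apply', ih]
    set w := (lwalk z)^[ℓ] u with hw
    funext g
    unfold lwalk walk
    have hk' : (k : ℝ) ≠ 0 := by positivity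
    have h1 : ∑ i : Fin k, ((w (g * z i) - p) + (w (g * (z i)⁻¹) - p)) =
        ∑ i : Fin k, (w (g * z i) + w (g * (z i)⁻¹)) - 2 * k * p := by
      have h2 : (2 * k * p : ℝ) = ∑ _i : Fin k, 2 * p := by
        rw [Finset.sum_const, Finset.card_univ, Fintype.card_fin, nsmul_eq_mul]; ring
      rw [h2, ← Finset.sum_sub_distrib]
      refine Finset.sum_congr rfl fun i _ => by ring
    rw [h1]
    field_simp
    ring

/-- lazy averaging matrix -/
noncomputable def lz {D : ℕ} (A : Matrix (Fin D) (Fin D) ℂ) : Matrix (Fin D) (Fin D) ℂ :=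
  (1 / 2 : ℝ) • (1 + A)

theorem lz_isHermitian {D : ℕ} {A : Matrix (Fin D) (Fin D) ℂ} (hA : A.IsHermitian) :
    (lz A).IsHermitian := by
  unfold lz Matrix.IsHermitian
  rw [conjTranspose_smul, conjTranspose_add, conjTranspose_one, hA.eq]
  simp

theorem four_lwalk {D k : ℕ} {ρ : Perm (Fin n) →* Matrix (Fin D) (Fin D) ℂ}
    (hu : ∀ g, (ρ g)ᴴ * ρ g = 1) (z : Fin k → Alt n) (f : Alt n → ℝ) :
    four ρ (lwalk z f) = four ρ f * lz (avgRe fun l => ρ (z l : Perm (Fin n))) := by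
  have h1 : four ρ (lwalk z f) = (1 / 2 : ℝ) • (four ρ f + four ρ (walk z f)) := by
    unfold four lwalk
    rw [← Finset.sum_add_distrib, Finset.smul_sum]
    refine Finset.sum_congr rfl fun g _ => ?_
    rw [← add_smul, smul_smul]
  rw [h1, four_walk hu]
  unfold lz
  rw [Matrix.mul_smul, Matrix.mul_add, Matrix.mul_one]

theorem four_lwalk_iter {D k : ℕ} {ρ : Perm (Fin n) →* Matrix (Fin D) (Fin D) ℂ}
    (hu : ∀ g, (ρ g)ᴴ * ρ g = 1) (z : Fin k → Alt n) (f : Alt n → ℝ) (ℓ : ℕ) :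
    four ρ ((lwalk z)^[ℓ] f) =
      four ρ f * (lz (avgRe fun l => ρ (z l : Perm (Fin n)))) ^ ℓ := by
  induction ℓ with
  | zero => rw [pow_zero, Matrix.mul_one]; rfl
  | succ ℓ ih => rw [Function.iterate_succ_apply', four_lwalk hu, ih, Matrix.mul_assoc, pow_succ]

/-- Fourier coefficients of class functions are scalar -/
theorem four_class {D : ℕ} {ρ : Perm (Fin n) →* Matrix (Fin D) (Fin D) ℂ} (hρ : IsIrr ρ)
    (f : Alt n → ℝ) (hf : ∀ (σ : Perm (Fin n)) (g h : Alt n),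
      (h : Perm (Fin n)) = σ * g * σ⁻¹ → f h = f g) :
    ∃ c : ℂ, four ρ f = c • (1 : Matrix (Fin D) (Fin D) ℂ) := by
  have hu := hρ.unit
  have hconj : ∀ g : Perm (Fin n), ρ g * four ρ f * (ρ g)ᴴ = four ρ f := by
    intro σ
    set e : Alt n ≃ Alt n := (MulAut.conjNormal σ : Alt n ≃* Alt n).toEquiv with he
    have hev : ∀ g : Alt n, ((e g : Alt n) : Perm (Fin n)) = σ * g * σ⁻¹ := fun g => rfl
    unfold four
    rw [Finset.mul_sum, Finset.sum_mul, ← Equiv.sum_comp e (fun g : Alt n =>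
      f g • ρ (g : Perm (Fin n)))]
    refine Finset.sum_congr rfl fun g _ => ?_
    rw [hf σ g (e g) (hev g), hev g, map_mul, map_mul, ← rho_conj ρ hu, Matrix.mul_smul,
      Matrix.smul_mul]
  have h1 := hρ.schur (four ρ f)
  simp_rw [hconj] at h1
  rw [Finset.sum_const, Finset.card_univ] at h1
  have hG : (Fintype.card (Perm (Fin n)) : ℂ) ≠ 0 := by
    exact_mod_cast Fintype.card_ne_zero
  refine ⟨trace (four ρ f) / D, ?_⟩
  have h3 : (Fintype.card (Perm (Fin n)) : ℂ) • four ρ f = (Fintype.card (Perm (Fin n)) : ℂ) •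
      (trace (four ρ f) / D) • (1 : Matrix (Fin D) (Fin D) ℂ) := by
    rw [smul_smul, ← mul_div_assoc, ← h1]
    ext i j
    simp
  exact smul_right_injective _ hG h3

theorem trace_scalar {D : ℕ} (c : ℂ) (L : Matrix (Fin D) (Fin D) ℂ) (hL : L.IsHermitian)
    (ℓ : ℕ) : (trace ((c • (1 : Matrix (Fin D) (Fin D) ℂ)) * L ^ ℓ *
      ((c • (1 : Matrix (Fin D) (Fin D) ℂ)) * L ^ ℓ)ᴴ)).re =
      ‖c‖ ^ 2 * (trace (L ^ (2 * ℓ))).re := by
  have h1 : ((c • (1 : Matrix (Fin D) (Fin D) ℂ)) * L ^ ℓ *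
      ((c • (1 : Matrix (Fin D) (Fin D) ℂ)) * L ^ ℓ)ᴴ) = ((‖c‖ ^ 2 : ℝ) : ℂ) • L ^ (2 * ℓ) := by
    rw [conjTranspose_mul, conjTranspose_smul, conjTranspose_one, conjTranspose_pow, hL.eq,
      Matrix.smul_mul, Matrix.one_mul, Matrix.mul_smul, Matrix.mul_one, Matrix.smul_mul,
      Matrix.mul_smul, smul_smul, ← pow_add, two_mul]
    congr 1
    rw [Complex.star_def, Complex.mul_conj, Complex.normSq_eq_norm_sq]
  rw [h1, trace_smul, smul_eq_mul, Complex.re_ofReal_mul]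

/-- The second moment bound. -/
theorem energy_le (F : PW (Perm (Fin n))) {k : ℕ} (Z : Finset (Fin k → Alt n)) (ℓ : ℕ) (β : ℝ)
    (f : Alt n → ℝ) (hsum : ∑ g, f g = 0) (hf : ∀ (σ : Perm (Fin n)) (g h : Alt n),
      (h : Perm (Fin n)) = σ * g * σ⁻¹ → f h = f g)
    (hβ : ∀ i, ¬ Triv (F.ρ i) (Alt n) →
      ∑ z ∈ Z, (trace ((lz (avgRe fun l => F.ρ i (z l : Perm (Fin n)))) ^ (2 * ℓ))).re ≤
        F.D i * β) :
    ∑ z ∈ Z, ∑ y, ((lwalk z)^[ℓ] f y) ^ 2 ≤ β * ∑ y, f y ^ 2 := by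
  have hG : (0 : ℝ) < Fintype.card (Perm (Fin n)) := by exact_mod_cast Fintype.card_pos
  choose c hc using fun i => four_class (F.irr i) f hf
  have h1 : ∀ z : Fin k → Alt n, (Fintype.card (Perm (Fin n)) : ℝ) *
      ∑ y, ((lwalk z)^[ℓ] f y) ^ 2 = ∑ i, (F.D i : ℝ) * (‖c i‖ ^ 2 *
        (trace ((lz (avgRe fun l => F.ρ i (z l : Perm (Fin n)))) ^ (2 * ℓ))).re) := by
    intro z
    have h2 := parseval F ((lwalk z)^[ℓ] f) ((lwalk z)^[ℓ] f)
    simp_rw [sq]
    rw [← h2]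
    refine Finset.sum_congr rfl fun i _ => ?_
    rw [four_lwalk_iter (F.irr i).unit, hc i, trace_scalar _ _ (lz_isHermitian
      (avgRe_isHermitian _)), sq]
  have h3 : (Fintype.card (Perm (Fin n)) : ℝ) * ∑ y, f y ^ 2 =
      ∑ i, (F.D i : ℝ) * (‖c i‖ ^ 2 * F.D i) := by
    have h2 := parseval F f f
    simp_rw [sq]
    rw [← h2]
    refine Finset.sum_congr rfl fun i _ => ?_
    have h4 := trace_scalar (c i) (1 : Matrix (Fin (F.D i)) (Fin (F.D i)) ℂ)
      Matrix.isHermitian_one 0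
    rw [one_pow, Matrix.mul_one, trace_one, Fintype.card_fin,
      Complex.natCast_re, sq] at h4
    rw [hc i, h4]
  have h4 : ∀ i, (F.D i : ℝ) * (‖c i‖ ^ 2 *
      ∑ z ∈ Z, (trace ((lz (avgRe fun l => F.ρ i (z l : Perm (Fin n)))) ^ (2 * ℓ))).re) ≤
      β * ((F.D i : ℝ) * (‖c i‖ ^ 2 * F.D i)) := by
    intro i
    by_cases ht : Triv (F.ρ i) (Alt n)
    · have hM0 : four (F.ρ i) f = 0 := by
        unfold four
        have h3 : ∀ g : Alt n, f g • F.ρ i (g : Perm (Fin n)) =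
            f g • (1 : Matrix (Fin (F.D i)) (Fin (F.D i)) ℂ) := fun g => by rw [ht g]
        simp_rw [h3]
        rw [← Finset.sum_smul, hsum, zero_smul]
      have hc0 : c i = 0 := by
        have h5 := hc i
        rw [hM0] at h5
        have h6 := congrFun (congrFun h5 ⟨0, (F.irr i).pos⟩) ⟨0, (F.irr i).pos⟩
        simpa using h6.symm
      rw [hc0]; simp
    · have h5 := hβ i ht
      have h6 : (0 : ℝ) ≤ (F.D i : ℝ) * ‖c i‖ ^ 2 := by positivity
      have h7 := mul_le_mul_of_nonneg_left h5 h6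
      calc _ = (F.D i : ℝ) * ‖c i‖ ^ 2 * ∑ z ∈ Z, (trace ((lz (avgRe fun l =>
            F.ρ i (z l : Perm (Fin n)))) ^ (2 * ℓ))).re := by ring
        _ ≤ _ := h7
        _ = _ := by ring
  have h5 : (Fintype.card (Perm (Fin n)) : ℝ) * ∑ z ∈ Z, ∑ y, ((lwalk z)^[ℓ] f y) ^ 2 ≤
      (Fintype.card (Perm (Fin n)) : ℝ) * (β * ∑ y, f y ^ 2) := by
    rw [Finset.mul_sum]
    simp_rw [h1]
    rw [Finset.sum_comm]
    calc _ = ∑ i, (F.D i : ℝ) * (‖c i‖ ^ 2 *
          ∑ z ∈ Z, (trace ((lz (avgRe fun l => F.ρ i (z l : Perm (Fin n)))) ^ (2 * ℓ))).re) := by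
          refine Finset.sum_congr rfl fun i _ => ?_
          rw [Finset.mul_sum, Finset.mul_sum]
      _ ≤ ∑ i, β * ((F.D i : ℝ) * (‖c i‖ ^ 2 * F.D i)) := Finset.sum_le_sum fun i _ => h4 i
      _ = β * ((Fintype.card (Perm (Fin n)) : ℝ) * ∑ y, f y ^ 2) := by
          rw [← Finset.mul_sum, h3]
      _ = _ := by ring
  exact le_of_mul_le_mul_left h5 hG

theorem low_aux {X Y : Type} [Fintype Y] [DecidableEq X] [DecidableEq Y] (Z : Finset X)
    (B : Finset (X × Y)) (G : X → Y → ℝ) (q : ℝ) (h : ∀ b ∈ B, b.1 ∈ Z ∧ q ≤ G b.1 b.2)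
    (hG : ∀ x y, 0 ≤ G x y) : (B.card : ℝ) * q ≤ ∑ z ∈ Z, ∑ y, G z y := by
  rw [← Finset.sum_product']
  have hsub : B ⊆ Z ×ˢ (Finset.univ : Finset Y) := fun b hb =>
    Finset.mem_product.2 ⟨(h b hb).1, Finset.mem_univ _⟩
  refine le_trans ?_ (Finset.sum_le_sum_of_subset_of_nonneg hsub
    (f := fun b => G b.1 b.2) fun b _ _ => hG _ _)
  rw [← nsmul_eq_mul]
  exact Finset.card_nsmul_le_sum B (fun b => G b.1 b.2) _ fun b hb => (h b hb).2

/-- few pairs miss the class -/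
theorem miss_count (F : PW (Perm (Fin n))) {k : ℕ} (hk : 0 < k) (Z : Finset (Fin k → Alt n))
    (ℓ : ℕ) (β : ℝ) (hβ0 : 0 ≤ β)
    (hβ : ∀ i, ¬ Triv (F.ρ i) (Alt n) →
      ∑ z ∈ Z, (trace ((lz (avgRe fun l => F.ρ i (z l : Perm (Fin n)))) ^ (2 * ℓ))).re ≤
        F.D i * β)
    (E : Finset (Alt n)) (hE : E.Nonempty) (hcl : ∀ (σ : Perm (Fin n)) (g h : Alt n),
      (h : Perm (Fin n)) = σ * g * σ⁻¹ → g ∈ E → h ∈ E)
    (B : Finset ((Fin k → Alt n) × Alt n)) (hB : ∀ b ∈ B, b.1 ∈ Z ∧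
      ∀ l : List (Fin k × Bool), l.length ≤ ℓ → b.2 * evl b.1 l ∉ E) :
    (B.card : ℝ) * E.card ≤ β * (Fintype.card (Alt n) : ℝ) ^ 2 := by
  classical
  set N : ℝ := (Fintype.card (Alt n) : ℝ) with hN
  have hN0 : 0 < N := card_pos' (Alt n)
  set p : ℝ := E.card / N with hp
  have hE0 : (0 : ℝ) < E.card := by exact_mod_cast hE.card_pos
  have hp0 : 0 < p := by positivity
  set u : Alt n → ℝ := fun g => if g ∈ E then 1 else 0 with hu
  set f : Alt n → ℝ := fun g => u g - p with hfdef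
  have hsumu : ∑ g, u g = E.card := by
    rw [hu]
    simp
  have hcardN : ((Finset.univ : Finset (Alt n)).card : ℝ) = N := by
    rw [Finset.card_univ]
  have hsum : ∑ g, f g = 0 := by
    rw [hfdef, Finset.sum_sub_distrib, hsumu, Finset.sum_const, nsmul_eq_mul, hcardN, hp]
    field_simp
    ring
  have hsq : ∑ g, f g ^ 2 ≤ E.card := by
    have h1 : ∀ g, f g ^ 2 = u g - 2 * p * u g + p ^ 2 := by
      intro g
      have h2 : u g ^ 2 = u g := by
        rw [hu]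
        by_cases h : g ∈ E <;> simp [h]
      rw [hfdef]
      simp only
      rw [sub_sq, h2]
      ring
    simp_rw [h1]
    rw [Finset.sum_add_distrib, Finset.sum_sub_distrib, ← Finset.mul_sum, hsumu,
      Finset.sum_const, nsmul_eq_mul, hcardN]
    have h3 : p * N = E.card := by rw [hp]; field_simp
    have h4 : N * p ^ 2 = p * E.card := by rw [← h3]; ring
    rw [h4]
    have : 0 ≤ p * E.card := by positivity
    linarith
  have hf : ∀ (σ : Perm (Fin n)) (g h : Alt n), (h : Perm (Fin n)) = σ * g * σ⁻¹ →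
      f h = f g := by
    intro σ g h hh
    have h1 : g ∈ E ↔ h ∈ E := by
      refine ⟨hcl σ g h hh, hcl σ⁻¹ h g ?_⟩
      rw [hh]; group
    rw [hfdef]
    simp only [hu, h1]
  have hen := energy_le F Z ℓ β f hsum hf hβ
  have hlow : (B.card : ℝ) * p ^ 2 ≤ ∑ z ∈ Z, ∑ y, ((lwalk z)^[ℓ] f y) ^ 2 := by
    refine low_aux Z B (fun z y => ((lwalk z)^[ℓ] f y) ^ 2) (p ^ 2) (fun b hb => ?_)
      (fun _ _ => sq_nonneg _)
    refine ⟨(hB b hb).1, ?_⟩
    have h1 : (lwalk b.1)^[ℓ] f b.2 = (lwalk b.1)^[ℓ] u b.2 - p := by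
      rw [hfdef, lwalk_sub_const hk]
    have h2 : (lwalk b.1)^[ℓ] u b.2 = 0 := by
      by_contra hne
      obtain ⟨l, hl, hlE⟩ := exists_word b.1 (fun g => g ∈ E) u (fun g hg => by
        rw [hu] at hg
        simp only at hg
        by_contra hc
        rw [if_neg hc] at hg
        exact hg rfl) ℓ b.2 hne
      exact (hB b hb).2 l hl hlE
    rw [h1, h2]
    apply le_of_eq
    ring
  have h1 : (B.card : ℝ) * p ^ 2 ≤ β * E.card :=
    (hlow.trans hen).trans (mul_le_mul_of_nonneg_left hsq hβ0)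
  have h2 : (B.card : ℝ) * p ^ 2 * N ^ 2 ≤ β * E.card * N ^ 2 :=
    mul_le_mul_of_nonneg_right h1 (by positivity)
  have h3 : (B.card : ℝ) * p ^ 2 * N ^ 2 = ((B.card : ℝ) * E.card) * E.card := by
    rw [hp]; field_simp
  rw [h3] at h2
  have h4 : ((B.card : ℝ) * E.card) * E.card ≤ (β * N ^ 2) * E.card := by
    calc _ ≤ β * E.card * N ^ 2 := h2
      _ = _ := by ring
  exact le_of_mul_le_mul_right h4 hE0

end Pool.Agent.Helper6.T5
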