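import Pool.Agent.Helper6.T5.Hit
import Pool.Agent.Helper6.FixK.Block

/-! Moments of the lazy averaging matrix. -/

set_option linter.unusedSectionVars false

namespace Pool.Agent.Helper6.T5

open Matrix Equiv Pool.Agent.Helper15.An Pool.Agent.Helper6.FixK
open scoped ComplexOrder

variable {n : ℕ}

theorem one_add_avgRe_psd {D k : ℕ} (hk : 0 < k) {ρ : Perm (Fin n) →* Matrix (Fin D) (Fin D) ℂ}
    (hu : ∀ g, (ρ g)ᴴ * ρ g = 1) (x : Fin k → Perm (Fin n)) :
    ((1 : Matrix (Fin D) (Fin D) ℂ) + avgRe fun l => ρ (x l)).PosSemidef := by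
  have hk0 : (0 : ℝ) < 2 * k := by positivity
  have h2 : (1 : Matrix (Fin D) (Fin D) ℂ) + (avgRe fun l => ρ (x l)) =
      (2 * (k : ℝ))⁻¹ • ∑ l, ((1 + ρ (x l)) * (1 + ρ (x l))ᴴ) := by
    have h3 : ∀ l, (1 + ρ (x l)) * (1 + ρ (x l))ᴴ =
        (2 : ℝ) • (1 : Matrix (Fin D) (Fin D) ℂ) + (ρ (x l) + (ρ (x l))ᴴ) := by
      intro l
      rw [conjTranspose_add, conjTranspose_one, Matrix.add_mul, Matrix.mul_add, Matrix.mul_add,
        Matrix.one_mul, Matrix.one_mul, Matrix.mul_one, rho_mul_conj ρ hu, two_smul]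
      abel
    simp_rw [h3]
    rw [Finset.sum_add_distrib, smul_add, Finset.sum_const, Finset.card_univ, Fintype.card_fin,
      ← Nat.cast_smul_eq_nsmul ℝ, smul_smul, smul_smul]
    unfold avgRe
    congr 1
    rw [show (2 * (k : ℝ))⁻¹ * k * 2 = 1 by field_simp, one_smul]
  rw [h2]
  exact (posSemidef_sum _ fun l _ => Matrix.posSemidef_self_mul_conjTranspose _).smul
    (by positivity)

theorem low_trace {D : ℕ} {A : Matrix (Fin D) (Fin D) ℂ} (hA : A.IsHermitian) (ε : ℝ)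
    (h1 : ((1 - ε) • (1 : Matrix (Fin D) (Fin D) ℂ) - A).PosSemidef)
    (h2 : ((1 : Matrix (Fin D) (Fin D) ℂ) + A).PosSemidef) (m : ℕ) :
    (trace ((lz A) ^ m)).re ≤ D * (1 - ε / 2) ^ m := by
  have hL := lz_isHermitian hA
  have hLp : (lz A).PosSemidef := h2.smul (show (0 : ℝ) ≤ 1 / 2 by norm_num)
  have hLu : ((1 - ε / 2) • (1 : Matrix (Fin D) (Fin D) ℂ) - lz A).PosSemidef := by
    have h3 : (1 - ε / 2) • (1 : Matrix (Fin D) (Fin D) ℂ) - lz A =
        (1 / 2 : ℝ) • ((1 - ε) • (1 : Matrix (Fin D) (Fin D) ℂ) - A) := by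
      unfold lz
      module
    rw [h3]
    exact h1.smul (by norm_num)
  rw [trace_pow_eq hL]
  calc ∑ i, hL.eigenvalues i ^ m ≤ ∑ _i : Fin D, (1 - ε / 2) ^ m := by
        refine Finset.sum_le_sum fun i _ => ?_
        have h3 := eigenvalues_le_of hL _ hLu i
        have h4 : 0 ≤ hL.eigenvalues i := hLp.eigenvalues_nonneg i
        exact pow_le_pow_left₀ h4 h3 m
    _ = D * (1 - ε / 2) ^ m := by simp

theorem even_trace_nonneg {D : ℕ} {A : Matrix (Fin D) (Fin D) ℂ} (hA : A.IsHermitian) (m : ℕ) :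
    0 ≤ (trace ((lz A) ^ (2 * m))).re := by
  rw [trace_pow_eq (lz_isHermitian hA)]
  refine Finset.sum_nonneg fun i _ => ?_
  rw [pow_mul]
  positivity

theorem lz_pow {D : ℕ} (A : Matrix (Fin D) (Fin D) ℂ) (m : ℕ) :
    (lz A) ^ m = ((1 / 2 : ℝ) ^ m) • ∑ j ∈ Finset.range (m + 1), (m.choose j : ℝ) • A ^ j := by
  unfold lz
  rw [smul_pow]
  congr 1
  rw [add_comm, (Commute.one_right A).add_pow m]
  refine Finset.sum_congr rfl fun j _ => ?_
  rw [one_pow, mul_one, ← nsmul_eq_mul', Nat.cast_smul_eq_nsmul]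

/-- moment bound for the lazy averaging matrix -/
theorem lazy_moment_le {D k : ℕ} (hn : 2 ≤ n) (hk : 0 < k)
    {ρ : Perm (Fin n) →* Matrix (Fin D) (Fin D) ℂ}
    (hu : ∀ g, (ρ g)ᴴ * ρ g = 1) (m f F : ℕ)
    (hV : 2 * (f * (m + 1)) ≤ n) (hF : 2 * (f * (m + 1)) ≤ F)
    (hF0 : 0 < F) (ψ : ℝ) (hψ0 : 0 ≤ ψ)
    (hψ : ∀ g : Perm (Fin n), fixc g < F → ‖trace (ρ g)‖ ≤ D * ψ) :
    ∑ x : Fin k → Alt n, (trace ((lz (avgRe fun l => ρ (x l : Perm (Fin n)))) ^ m)).re ≤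
      D * (Fintype.card (Alt n) : ℝ) ^ k *
        (((1 + 2 * Real.sqrt (2 * k) / (2 * k)) / 2) ^ m +
          2 ^ k * (4 * m * (f * (m + 1)) / F) ^ f + ψ) := by
  set N := (Fintype.card (Alt n) : ℝ) ^ k with hN
  have hN0 : 0 ≤ N := by positivity
  have hD : (0 : ℝ) ≤ D := Nat.cast_nonneg _
  set lam : ℝ := 2 * Real.sqrt (2 * k) / (2 * k) with hlam
  set b : ℝ := 2 ^ k * (4 * m * (f * (m + 1)) / F) ^ f + ψ with hb
  have h1 : ∀ j ∈ Finset.range (m + 1),
      ∑ x : Fin k → Alt n, (trace ((avgRe fun l => ρ (x l : Perm (Fin n))) ^ j)).re ≤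
        D * N * (lam ^ j + b) := by
    intro j hj
    have hj' : j ≤ m := by
      have := Finset.mem_range.1 hj
      omega
    have h2 : f * (j + 1) ≤ f * (m + 1) := Nat.mul_le_mul_left _ (by omega)
    refine (moment_le hn hk hu j f F (by omega) (by omega) hF0 ψ hψ0 hψ).trans ?_
    rw [hb, add_assoc]
    have h3 : (4 * (j : ℝ) * (f * (j + 1)) / F) ^ f ≤ (4 * (m : ℝ) * (f * (m + 1)) / F) ^ f := by
      have : (j : ℝ) ≤ m := by exact_mod_cast hj'
      gcongr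
    have h4 : (2 : ℝ) ^ k * (4 * (j : ℝ) * (f * (j + 1)) / F) ^ f ≤
        2 ^ k * (4 * (m : ℝ) * (f * (m + 1)) / F) ^ f := by gcongr
    have h5 : 0 ≤ D * N := by positivity
    refine mul_le_mul_of_nonneg_left ?_ h5
    linarith
  have h2 : ∀ x : Fin k → Alt n, (trace ((lz (avgRe fun l => ρ (x l : Perm (Fin n)))) ^ m)).re =
      (1 / 2) ^ m * ∑ j ∈ Finset.range (m + 1), (m.choose j : ℝ) *
        (trace ((avgRe fun l => ρ (x l : Perm (Fin n))) ^ j)).re := by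
    intro x
    rw [lz_pow, trace_smul, Complex.real_smul, Complex.re_ofReal_mul, trace_sum, Complex.re_sum]
    congr 1
    refine Finset.sum_congr rfl fun j _ => ?_
    rw [trace_smul, Complex.real_smul, Complex.re_ofReal_mul]
  simp_rw [h2]
  rw [← Finset.mul_sum, Finset.sum_comm]
  have h3 : ∑ j ∈ Finset.range (m + 1), ∑ x : Fin k → Alt n, (m.choose j : ℝ) *
      (trace ((avgRe fun l => ρ (x l : Perm (Fin n))) ^ j)).re ≤
      ∑ j ∈ Finset.range (m + 1), (m.choose j : ℝ) * (D * N * (lam ^ j + b)) := by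
    refine Finset.sum_le_sum fun j hj => ?_
    rw [← Finset.mul_sum]
    exact mul_le_mul_of_nonneg_left (h1 j hj) (Nat.cast_nonneg _)
  refine (mul_le_mul_of_nonneg_left h3 (by positivity)).trans (le_of_eq ?_)
  have h4 : ∑ j ∈ Finset.range (m + 1), (m.choose j : ℝ) * (D * N * (lam ^ j + b)) =
      D * N * (∑ j ∈ Finset.range (m + 1), lam ^ j * 1 ^ (m - j) * (m.choose j : ℝ) +
        b * ∑ j ∈ Finset.range (m + 1), (m.choose j : ℝ)) := by
    rw [Finset.mul_sum, ← Finset.sum_add_distrib, Finset.mul_sum]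
    refine Finset.sum_congr rfl fun j _ => ?_
    rw [one_pow]
    ring
  have h5 : ∑ j ∈ Finset.range (m + 1), (m.choose j : ℝ) = 2 ^ m := by
    exact_mod_cast Nat.sum_range_choose m
  rw [h4, ← add_pow, h5]
  have h6 : (1 / 2 : ℝ) ^ m * 2 ^ m = 1 := by rw [← mul_pow]; norm_num
  calc (1 / 2 : ℝ) ^ m * (D * N * ((lam + 1) ^ m + b * 2 ^ m))
      = D * N * ((1 / 2 : ℝ) ^ m * (lam + 1) ^ m + b * ((1 / 2 : ℝ) ^ m * 2 ^ m)) := by ring
    _ = D * N * (((1 + lam) / 2) ^ m + b) := by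
        rw [h6, mul_one, ← mul_pow]
        congr 3
        ring
    _ = _ := by rw [hb]; ring

end Pool.Agent.Helper6.T5
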