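import Pool.Agent.Helper6.T5.Moment
import Pool.Agent.Helper6.FixK.Levels

/-! Numerical estimates for the second moment method. -/

set_option linter.unusedSectionVars false

namespace Pool.Agent.Helper6.T5

open Matrix Equiv Filter Topology Pool.Agent.Helper15.An Pool.Agent.Helper6.FixK
open scoped ComplexOrder

variable {n : ℕ}

/-- bound for the characters of high level -/
theorem psi_bound {D : ℕ} {ρ : Perm (Fin n) →* Matrix (Fin D) (Fin D) ℂ} (hρ : IsIrr ρ)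
    (hnt : ¬ Triv ρ (Alt n)) (hno : ¬ HasFix ρ (stab n 20)) (F q J : ℕ)
    (hq : 16 * (q + 1) ≤ n) (hn : 64 ≤ n) (hJ : 20 * (12 * J + 1) ≤ n) (hF : 10 * F ≤ n) (ψ : ℝ)
    (h1 : ∀ R : ℕ, 20 < R → R ≤ q → (2 * (F : ℝ) / n + 14 * Real.sqrt (R / n)) ^ R ≤ ψ)
    (h2 : 2 * (n : ℝ) ^ (12 * J) * (7 / 8) ^ (q + 1) + 1 / 2 ^ J ≤ ψ)
    (g : Perm (Fin n)) (hg : fixc g < F) : ‖trace (ρ g)‖ ≤ D * ψ := by
  have hD : (0 : ℝ) ≤ D := Nat.cast_nonneg _
  have hn0 : (0 : ℝ) < n := by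
    have : 0 < n := by omega
    exact_mod_cast this
  by_cases hf : HasFix ρ (stab n q)
  · obtain ⟨R, hR0, hRq, hR1, hR2⟩ := exists_level hρ hnt hf
    have hR20 : 20 < R := by
      by_contra hc
      exact hno (hR1.mono (by omega))
    refine (char_bound_level hR0 (by omega) hρ hR1 hR2 g).trans ?_
    refine mul_le_mul_of_nonneg_left ?_ hD
    refine le_trans ?_ (h1 R hR20 hRq)
    have h3 : (fixc g : ℝ) ≤ F := by exact_mod_cast hg.le
    gcongr
  · have h3 := char_bound_mat ρ hρ.unit q hf hn hq J hJ g (by omega)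
    rw [mul_comm (D : ℝ)]
    exact h3.trans (mul_le_mul_of_nonneg_right h2 hD)

theorem ev_exp (b C : ℝ) (hb : 0 < b) : ∀ᶠ L : ℝ in atTop, C ≤ Real.exp (b * L) := by
  filter_upwards [eventually_ge_atTop (C / b), eventually_ge_atTop 0] with L hL h0
  have h1 : C ≤ b * L := by
    rw [div_le_iff₀ hb] at hL
    linarith
  have := Real.add_one_le_exp (b * L)
  linarith

/-- a quadratic is eventually below an exponential -/
theorem ev_quad (b C : ℝ) (hb : 0 < b) (hC : 0 ≤ C) :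
    ∀ᶠ L : ℝ in atTop, C * (L + 1) ^ 2 ≤ Real.exp (b * L) := by
  filter_upwards [eventually_ge_atTop (6 * (C * 4) / b ^ 3), eventually_ge_atTop 1] with L hL h0
  have h1 := Real.pow_div_factorial_le_exp (b * L) (by positivity) 3
  refine le_trans ?_ h1
  rw [div_le_iff₀ (by positivity)] at hL
  rw [le_div_iff₀ (by positivity)]
  have h2 : ((3 : ℕ).factorial : ℝ) = 6 := by norm_num [Nat.factorial]
  rw [h2, mul_pow]
  calc C * (L + 1) ^ 2 * 6 ≤ C * (L + L) ^ 2 * 6 := by gcongr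
    _ = (6 * (C * 4)) * L ^ 2 := by ring
    _ ≤ (L * b ^ 3) * L ^ 2 := by gcongr
    _ = b ^ 3 * L ^ 3 := by ring

/-- the two numerical facts about the characters, in terms of the logarithm -/
theorem ev_N1 : ∀ᶠ n : ℕ in atTop, ∀ R : ℕ, 20 < R → R ≤ n / 800 →
    (2 * (⌈(n : ℝ) ^ (1 / 4 : ℝ)⌉₊ : ℝ) / n + 14 * Real.sqrt (R / n)) ^ R ≤ 1 / (n : ℝ) ^ 3 := by
  have hlog : Tendsto (fun n : ℕ => Real.log n) atTop atTop :=
    Real.tendsto_log_atTop.comp tendsto_natCast_atTop_atTop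
  have e1 := hlog.eventually (ev_exp (1 / 4) 1000 (by norm_num))
  have e2 := hlog.eventually (ev_exp (9 / 4) (15 ^ 21) (by norm_num))
  have e3 := hlog.eventually (ev_quad (1 / 2) 6 (by norm_num) (by norm_num))
  filter_upwards [e1, e2, e3, eventually_ge_atTop 3] with n h1 h2 h3 hn3 R hR20 hRq
  have hn0 : (0 : ℝ) < n := by
    have : 0 < n := by omega
    exact_mod_cast this
  set L := Real.log n with hL
  have hnL : (n : ℝ) = Real.exp L := (Real.exp_log hn0).symm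
  have hL0 : 0 ≤ L := Real.log_nonneg (by
    have : 1 ≤ n := by omega
    exact_mod_cast this)
  have hq : (n : ℝ) ^ (1 / 4 : ℝ) = Real.exp (1 / 4 * L) := by
    rw [Real.rpow_def_of_pos hn0, mul_comm]
  set v := Real.exp (1 / 4 * L) with hv
  have hv0 : 0 < v := Real.exp_pos _
  have hnv : (n : ℝ) = v ^ 4 := by
    rw [hnL, hv, ← Real.exp_nat_mul]
    congr 1
    push_cast
    ring
  have hF : (⌈(n : ℝ) ^ (1 / 4 : ℝ)⌉₊ : ℝ) ≤ 2 * v := by
    rw [hq]
    have := Nat.ceil_lt_add_one hv0.le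
    linarith
  have hF2 : 2 * (⌈(n : ℝ) ^ (1 / 4 : ℝ)⌉₊ : ℝ) / n ≤ 4 / v ^ 3 := by
    rw [hnv, div_le_div_iff₀ (by positivity) (by positivity)]
    calc 2 * (⌈(v ^ 4 : ℝ) ^ (1 / 4 : ℝ)⌉₊ : ℝ) * v ^ 3
        ≤ 2 * (2 * v) * v ^ 3 := by
          rw [hnv] at hF
          gcongr
      _ = 4 * v ^ 4 := by ring
  have hR0 : (0 : ℝ) ≤ R := Nat.cast_nonneg _
  have hbase0 : 0 ≤ 2 * (⌈(n : ℝ) ^ (1 / 4 : ℝ)⌉₊ : ℝ) / n + 14 * Real.sqrt (R / n) := by
    positivity
  rcases le_or_gt ((R : ℝ) ^ 2) n with hcase | hcase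
  · -- low levels
    have hRv : (R : ℝ) ≤ v ^ 2 := by
      have : (R : ℝ) ^ 2 ≤ (v ^ 2) ^ 2 := by rw [← pow_mul]; exact hcase.trans (le_of_eq hnv)
      exact le_of_sq_le_sq this (by positivity)
    have hs : Real.sqrt (R / n) ≤ 1 / v := by
      rw [Real.sqrt_le_left (by positivity), div_pow, one_pow, hnv,
        div_le_div_iff₀ (by positivity) (by positivity)]
      nlinarith [pow_pos hv0 2]
    have hb : 2 * (⌈(n : ℝ) ^ (1 / 4 : ℝ)⌉₊ : ℝ) / n + 14 * Real.sqrt (R / n) ≤ 15 / v := by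
      have h4 : 4 / v ^ 3 ≤ 1 / v := by
        rw [div_le_div_iff₀ (by positivity) hv0]
        nlinarith [pow_pos hv0 2, pow_pos hv0 3]
      calc _ ≤ 4 / v ^ 3 + 14 * (1 / v) := by gcongr
        _ ≤ 1 / v + 14 * (1 / v) := by gcongr
        _ = 15 / v := by ring
    have hb1 : 15 / v ≤ 1 := by
      rw [div_le_one hv0]; linarith
    calc _ ≤ (15 / v) ^ R := pow_le_pow_left₀ hbase0 hb R
      _ ≤ (15 / v) ^ 21 := pow_le_pow_of_le_one (by positivity) hb1 (by omega)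
      _ ≤ 1 / (n : ℝ) ^ 3 := by
          rw [div_pow, hnv, div_le_div_iff₀ (by positivity) (by positivity), one_mul]
          have h5 : Real.exp (9 / 4 * L) = v ^ 9 := by
            rw [hv, ← Real.exp_nat_mul]; congr 1; push_cast; ring
          rw [h5] at h2
          calc (15 : ℝ) ^ 21 * (v ^ 4) ^ 3 ≤ v ^ 9 * (v ^ 4) ^ 3 := by gcongr
            _ = v ^ 21 := by ring
  · -- high levels
    have hRn : (R : ℝ) * 800 ≤ n := by
      have := (Nat.le_div_iff_mul_le (by norm_num)).1 hRq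
      exact_mod_cast this
    have hs : Real.sqrt (R / n) ≤ 99 / 2800 := by
      rw [Real.sqrt_le_left (by norm_num)]
      have h4 : (R : ℝ) / n ≤ 1 / 800 := by
        rw [div_le_div_iff₀ hn0 (by norm_num)]; linarith
      refine h4.trans ?_
      norm_num
    have hb : 2 * (⌈(n : ℝ) ^ (1 / 4 : ℝ)⌉₊ : ℝ) / n + 14 * Real.sqrt (R / n) ≤ 1 / 2 := by
      have h4 : 4 / v ^ 3 ≤ 1 / 200 := by
        rw [div_le_div_iff₀ (by positivity) (by norm_num)]
        have : (1000 : ℝ) ^ 3 ≤ v ^ 3 := pow_le_pow_left₀ (by norm_num) h1 3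
        linarith
      have h5 := hF2.trans h4
      linarith
    have hRsq : v ^ 2 ≤ R := by
      have : (v ^ 2) ^ 2 ≤ (R : ℝ) ^ 2 := by rw [← pow_mul]; exact (le_of_eq hnv.symm).trans hcase.le
      exact le_of_sq_le_sq this hR0
    have hR2 : 6 * (L + 1) ^ 2 ≤ R := by
      refine le_trans ?_ hRsq
      have h5 : Real.exp (1 / 2 * L) = v ^ 2 := by
        rw [hv, ← Real.exp_nat_mul]; congr 1; push_cast; ring
      rw [← h5]; exact h3
    calc _ ≤ (1 / 2 : ℝ) ^ R := pow_le_pow_left₀ hbase0 hb R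
      _ = Real.exp (-(R * Real.log 2)) := by
          rw [one_div, inv_pow, Real.exp_neg, Real.exp_nat_mul, Real.exp_log (by norm_num)]
      _ ≤ Real.exp (-(3 * L)) := by
          apply Real.exp_le_exp.2
          have h6 : (1 / 2 : ℝ) ≤ Real.log 2 := by
            have := Real.log_two_gt_d9; linarith
          have h7 : 6 * L ≤ R := by nlinarith
          have h8 : (R : ℝ) * (1 / 2) ≤ R * Real.log 2 := mul_le_mul_of_nonneg_left h6 hR0
          linarith
      _ = 1 / (n : ℝ) ^ 3 := by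
          rw [hnL, ← Real.exp_nat_mul, Real.exp_neg, one_div]
          norm_num

theorem ev_N2 : ∀ᶠ n : ℕ in atTop,
    2 * (n : ℝ) ^ (12 * (5 * ⌈Real.log n⌉₊)) * (7 / 8) ^ (n / 800 + 1) +
      1 / 2 ^ (5 * ⌈Real.log n⌉₊) ≤ 1 / (n : ℝ) ^ 3 := by
  have hlog : Tendsto (fun n : ℕ => Real.log n) atTop atTop :=
    Real.tendsto_log_atTop.comp tendsto_natCast_atTop_atTop
  have e1 := hlog.eventually (ev_exp (2 / 5) 2 (by norm_num))
  have e2 := hlog.eventually (ev_quad 1 (64 * 8000) (by norm_num) (by norm_num))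
  filter_upwards [e1, e2, eventually_ge_atTop 3] with n h1 h2 hn3
  have hn0 : (0 : ℝ) < n := by
    have : 0 < n := by omega
    exact_mod_cast this
  set L := Real.log n with hL
  have hnL : (n : ℝ) = Real.exp L := (Real.exp_log hn0).symm
  have hL0 : 0 ≤ L := Real.log_nonneg (by
    have : 1 ≤ n := by omega
    exact_mod_cast this)
  set J : ℕ := 5 * ⌈L⌉₊ with hJ
  have hJ1 : 5 * L ≤ J := by
    rw [hJ]; push_cast
    have := Nat.le_ceil L
    linarith
  have hJ2 : (J : ℝ) ≤ 5 * (L + 1) := by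
    rw [hJ]; push_cast
    have := Nat.ceil_lt_add_one hL0
    linarith
  have hl2 : (34 / 50 : ℝ) ≤ Real.log 2 := by
    have := Real.log_two_gt_d9; linarith
  have hn3 : 1 / (n : ℝ) ^ 3 = Real.exp (-(3 * L)) := by
    rw [hnL, ← Real.exp_nat_mul, Real.exp_neg, one_div]
    norm_num
  have hA : 1 / (2 : ℝ) ^ J ≤ (1 / 2) * Real.exp (-(3 * L)) := by
    have h3 : (2 : ℝ) ^ J = Real.exp (J * Real.log 2) := by
      rw [Real.exp_nat_mul, Real.exp_log (by norm_num)]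
    have h4 : 2 * Real.exp (3 * L) ≤ (2 : ℝ) ^ J := by
      rw [h3]
      calc 2 * Real.exp (3 * L) ≤ Real.exp (2 / 5 * L) * Real.exp (3 * L) := by gcongr
        _ = Real.exp ((17 / 5) * L) := by rw [← Real.exp_add]; congr 1; ring
        _ ≤ Real.exp (J * Real.log 2) := by
            apply Real.exp_le_exp.2
            have h5 : (5 * L) * (34 / 50) ≤ J * Real.log 2 :=
              mul_le_mul hJ1 hl2 (by norm_num) (Nat.cast_nonneg _)
            linarith
    rw [Real.exp_neg, ← one_div, div_mul_div_comm, one_mul]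
    exact one_div_le_one_div_of_le (by positivity) h4
  have hB : 2 * (n : ℝ) ^ (12 * J) * (7 / 8) ^ (n / 800 + 1) ≤ (1 / 2) * Real.exp (-(3 * L)) := by
    have h3 : (n : ℝ) ^ (12 * J) = Real.exp (12 * J * L) := by
      rw [hnL, ← Real.exp_nat_mul]; push_cast; rfl
    have h4 : (7 / 8 : ℝ) ≤ Real.exp (-(1 / 8)) := by
      have := Real.add_one_le_exp (-(1 / 8 : ℝ))
      linarith
    have h5 : (7 / 8 : ℝ) ^ (n / 800 + 1) ≤ Real.exp (-((n : ℝ) / 6400)) := by
      calc (7 / 8 : ℝ) ^ (n / 800 + 1) ≤ (Real.exp (-(1 / 8))) ^ (n / 800 + 1) := by gcongr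
        _ = Real.exp (((n / 800 + 1 : ℕ) : ℝ) * (-(1 / 8))) := by rw [Real.exp_nat_mul]
        _ ≤ Real.exp (-((n : ℝ) / 6400)) := by
            apply Real.exp_le_exp.2
            have h6 : (n : ℝ) / 800 ≤ ((n / 800 + 1 : ℕ) : ℝ) := by
              have h7 : n ≤ 800 * (n / 800 + 1) := by omega
              have h8 : (n : ℝ) ≤ 800 * ((n / 800 + 1 : ℕ) : ℝ) := by exact_mod_cast h7
              linarith
            linarith
    have h6 : (4 : ℝ) ≤ Real.exp 2 := by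
      have := Real.add_one_le_exp (1 : ℝ)
      have h7 : Real.exp 2 = Real.exp 1 * Real.exp 1 := by rw [← Real.exp_add]; norm_num
      rw [h7]
      nlinarith [Real.exp_pos 1]
    calc 2 * (n : ℝ) ^ (12 * J) * (7 / 8) ^ (n / 800 + 1)
        = (1 / 2) * (4 * (n : ℝ) ^ (12 * J) * (7 / 8) ^ (n / 800 + 1)) := by ring
      _ ≤ (1 / 2) * (Real.exp 2 * Real.exp (12 * J * L) * Real.exp (-((n : ℝ) / 6400))) := by
          rw [h3]; gcongr
      _ = (1 / 2) * Real.exp (2 + 12 * J * L - (n : ℝ) / 6400) := by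
          rw [← Real.exp_add, ← Real.exp_add]; congr 2; 
      _ ≤ (1 / 2) * Real.exp (-(3 * L)) := by
          refine mul_le_mul_of_nonneg_left (Real.exp_le_exp.2 ?_) (by norm_num)
          have h8 : 64 * 8000 * (L + 1) ^ 2 ≤ n := by
            rw [hnL]
            have : Real.exp (1 * L) = Real.exp L := by rw [one_mul]
            rw [← this]; exact h2
          have h9 : 12 * (J : ℝ) * L ≤ 12 * (5 * (L + 1)) * L := by gcongr
          nlinarith [sq_nonneg L]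
  rw [hn3]
  linarith

/-- the length of the words -/
noncomputable def len (n : ℕ) : ℕ := ⌈6 * Real.log n⌉₊

theorem ev_N3 (k : ℕ) : ∀ᶠ n : ℕ in atTop,
    2 * (20 * (2 * len n + 1)) ≤ n ∧ 2 * (20 * (2 * len n + 1)) ≤ ⌈(n : ℝ) ^ (1 / 4 : ℝ)⌉₊ ∧
    (2 : ℝ) ^ k * (4 * ((2 * len n : ℕ) : ℝ) * ((20 : ℕ) * (((2 * len n : ℕ) : ℝ) + 1)) /
      ⌈(n : ℝ) ^ (1 / 4 : ℝ)⌉₊) ^ 20 ≤ 1 / (n : ℝ) ^ 3 ∧
    (3 / 4 : ℝ) ^ (2 * len n) ≤ 1 / (n : ℝ) ^ 3 ∧ 10 * ⌈(n : ℝ) ^ (1 / 4 : ℝ)⌉₊ ≤ n ∧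
    20 * (12 * (5 * ⌈Real.log n⌉₊) + 1) ≤ n := by
  have hlog : Tendsto (fun n : ℕ => Real.log n) atTop atTop :=
    Real.tendsto_log_atTop.comp tendsto_natCast_atTop_atTop
  have e1 := hlog.eventually (ev_quad (1 / 10) (80 * 400 * 2 ^ k) (by norm_num) (by positivity))
  have e2 := hlog.eventually (ev_quad 1 10000 (by norm_num) (by norm_num))
  have e3 := hlog.eventually (ev_exp (3 / 4) 20 (by norm_num))
  filter_upwards [e1, e2, e3, eventually_ge_atTop 3] with n h1 h2 h3 hn3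
  have hn0 : (0 : ℝ) < n := by
    have : 0 < n := by omega
    exact_mod_cast this
  set L := Real.log n with hL
  have hnL : (n : ℝ) = Real.exp L := (Real.exp_log hn0).symm
  have hL0 : 0 ≤ L := Real.log_nonneg (by
    have : 1 ≤ n := by omega
    exact_mod_cast this)
  have hq : (n : ℝ) ^ (1 / 4 : ℝ) = Real.exp (1 / 4 * L) := by
    rw [Real.rpow_def_of_pos hn0, mul_comm]
  set v := Real.exp (1 / 4 * L) with hv
  have hv1 : 1 ≤ v := Real.one_le_exp (by positivity)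
  have hv0 : 0 < v := Real.exp_pos _
  set F : ℕ := ⌈(n : ℝ) ^ (1 / 4 : ℝ)⌉₊ with hF
  have hF1 : v ≤ F := by rw [hF, hq]; exact Nat.le_ceil _
  have hF2 : (F : ℝ) ≤ 2 * v := by
    rw [hF, hq]
    have := Nat.ceil_lt_add_one hv0.le
    linarith
  have hF0 : (0 : ℝ) < F := lt_of_lt_of_le hv0 hF1
  have hl1 : 6 * L ≤ len n := Nat.le_ceil _
  have hl2 : (len n : ℝ) ≤ 6 * L + 1 := (Nat.ceil_lt_add_one (by positivity)).le
  have h2k : (1 : ℝ) ≤ 2 ^ k := one_le_pow₀ (by norm_num)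
  have hL1 : (1 : ℝ) ≤ (L + 1) ^ 2 := one_le_pow₀ (by linarith)
  have hLL : L + 1 ≤ (L + 1) ^ 2 := by nlinarith
  have h10v : Real.exp (1 / 10 * L) ≤ v := Real.exp_le_exp.2 (by linarith)
  have hvn : v ≤ n := by
    rw [hnL]; exact Real.exp_le_exp.2 (by linarith)
  have hbig : 80 * 400 * (L + 1) ^ 2 ≤ v := by
    calc 80 * 400 * (L + 1) ^ 2 = 80 * 400 * 1 * (L + 1) ^ 2 := by ring
      _ ≤ 80 * 400 * 2 ^ k * (L + 1) ^ 2 := by gcongr
      _ ≤ v := h1.trans h10v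
  have hkey : 2 * (20 * (2 * (len n : ℝ) + 1)) ≤ v := by
    calc 2 * (20 * (2 * (len n : ℝ) + 1)) ≤ 80 * 400 * (L + 1) := by linarith
      _ ≤ 80 * 400 * (L + 1) ^ 2 := by gcongr
      _ ≤ v := hbig
  refine ⟨?_, ?_, ?_, ?_, ?_, ?_⟩
  · have h4 : ((2 * (20 * (2 * len n + 1)) : ℕ) : ℝ) ≤ n := by
      push_cast
      exact hkey.trans hvn
    exact_mod_cast h4
  · have h4 : ((2 * (20 * (2 * len n + 1)) : ℕ) : ℝ) ≤ F := by
      push_cast
      exact hkey.trans hF1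
    exact_mod_cast h4
  · push_cast
    have h4 : 4 * (2 * (len n : ℝ)) * (20 * (2 * len n + 1)) ≤ 80 * 400 * (L + 1) ^ 2 := by
      have h5 : 2 * (len n : ℝ) ≤ 20 * (L + 1) := by linarith
      have h6 : 2 * (len n : ℝ) + 1 ≤ 20 * (L + 1) := by linarith
      calc 4 * (2 * (len n : ℝ)) * (20 * (2 * len n + 1))
          ≤ 4 * (20 * (L + 1)) * (20 * (20 * (L + 1))) := by gcongr
        _ = 80 * 400 * (L + 1) ^ 2 := by ring
    have h7 : (2 : ℝ) ^ k ≤ (2 ^ k) ^ 20 := le_self_pow₀ h2k (by norm_num)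
    calc (2 : ℝ) ^ k * (4 * (2 * (len n : ℝ)) * (20 * (2 * len n + 1)) / F) ^ 20
        ≤ (2 ^ k) ^ 20 * (80 * 400 * (L + 1) ^ 2 / v) ^ 20 := by gcongr
      _ = (80 * 400 * 2 ^ k * (L + 1) ^ 2 / v) ^ 20 := by rw [← mul_pow]; congr 1; ring
      _ ≤ (Real.exp (1 / 10 * L) / v) ^ 20 := by gcongr
      _ = 1 / (n : ℝ) ^ 3 := by
          have h8 : 1 / (n : ℝ) ^ 3 = Real.exp (-(3 * L)) := by
            rw [hnL, ← Real.exp_nat_mul, Real.exp_neg, one_div]
            norm_num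
          rw [h8, hv, ← Real.exp_sub, ← Real.exp_nat_mul]
          congr 1
          push_cast
          ring
  · have h4 : (3 / 4 : ℝ) ≤ Real.exp (-(1 / 4)) := by
      have := Real.add_one_le_exp (-(1 / 4 : ℝ))
      linarith
    calc (3 / 4 : ℝ) ^ (2 * len n) ≤ (Real.exp (-(1 / 4))) ^ (2 * len n) := by gcongr
      _ = Real.exp (((2 * len n : ℕ) : ℝ) * (-(1 / 4))) := by rw [Real.exp_nat_mul]
      _ ≤ Real.exp (-(3 * L)) := by
          apply Real.exp_le_exp.2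
          push_cast
          linarith
      _ = 1 / (n : ℝ) ^ 3 := by
          rw [hnL, ← Real.exp_nat_mul, Real.exp_neg, one_div]
          norm_num
  · have h4 : ((10 * F : ℕ) : ℝ) ≤ n := by
      push_cast
      have h5 : (n : ℝ) = Real.exp (3 / 4 * L) * v := by
        rw [hnL, hv, ← Real.exp_add]; congr 1; ring
      rw [h5]
      calc 10 * (F : ℝ) ≤ 10 * (2 * v) := by gcongr
        _ = 20 * v := by ring
        _ ≤ Real.exp (3 / 4 * L) * v := by gcongr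
    exact_mod_cast h4
  · have h4 : ((20 * (12 * (5 * ⌈L⌉₊) + 1) : ℕ) : ℝ) ≤ n := by
      push_cast
      have h5 : (⌈L⌉₊ : ℝ) ≤ L + 1 := (Nat.ceil_lt_add_one hL0).le
      have h6 : 10000 * (L + 1) ^ 2 ≤ (n : ℝ) := by
        rw [hnL]
        have : Real.exp (1 * L) = Real.exp L := by rw [one_mul]
        rw [← this]; exact h2
      nlinarith
    exact_mod_cast h4

end Pool.Agent.Helper6.T5
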